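import Mathlib
import Pool.Agent.H84.Wpc

namespace Pool.Agent.Results.MP_f8a8cb_gt.Yes

open Pool.Agent.H84.Wpc

universe u v

theorem result {H : Type u} [Group H] [TopologicalSpace H] [IsTopologicalGroup H] [T2Space H]
    [LocallyCompactSpace H] (G : Subgroup H) (U : Set G) (hU : IsOpen U) (h1 : (1 : G) ∈ U)
    (hw : WeaklyPseudocompact.{u, v} (closure U)) :
    ∃ V : Set G, IsOpen V ∧ (1 : G) ∈ V ∧ Pseudocompact (closure V) :=
  main G U hU h1 hw

end Pool.Agent.Results.MP_f8a8cb_gt.Yes
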